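import Pool.Agent.Helper30.ZB.Scale
import Pool.Agent.Helper38.TQK.Growth

/-!
# Heights of periodic points in finite extensions
-/

set_option autoImplicit false

namespace Pool.Agent.Helper38.TNA

open MvPolynomial
open Pool.Agent.Helper16 (Place IsFunctionField)
open Pool.Agent.Helper36 (step iter exists_nullstellensatz)
open Pool.Agent.Helper38.TQ
open Pool.Agent.Helper30.TKN
open Pool.Agent.Helper30.ZB

variable {ν : ℕ}

section

variable {K : Type} [Field K] [Algebra K ℂ]

omit [Algebra K ℂ] in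
/-- The certificate at a point over an extension. -/
theorem Periodic_cert {d : ℕ} {F : Fin (ν + 1) → MvPolynomial (Fin (ν + 1)) K} {M : ℕ}
    {q : Fin (ν + 1) × Fin (ν + 1) → MvPolynomial (Fin (ν + 1)) K}
    (h : ∀ a, ∑ j, q (a, j) * F j = MvPolynomial.X a ^ (M + d)) {L : Type} [Field L] [Algebra K L]
    (y : Fin (ν + 1) → L) (a : Fin (ν + 1)) :
    y a ^ (M + d) = ∑ j, eval y (map (algebraMap K L) (q (a, j))) * step F y j := by
  have h2 := congrArg (aeval y) (h a)
  rw [map_pow, aeval_X, map_sum] at h2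
  rw [← h2]
  refine Finset.sum_congr rfl fun j _ => ?_
  rw [map_mul, eval_map, aeval_def, aeval_def]
  rfl

theorem step_ne_zeroL {d : ℕ} {F : Fin (ν + 1) → MvPolynomial (Fin (ν + 1)) K}
    (hF : IsEndo d fun i => map (algebraMap K ℂ) (F i)) {L : Type} [Field L] [Algebra K L]
    {y : Fin (ν + 1) → L} (hy : y ≠ 0) : step F y ≠ 0 := by
  obtain ⟨M, q, hq, h⟩ := exists_nullstellensatz (L := ℂ) F (fun i => homog_of_endo hF i)
    (growth_aeval_zero hF)
  intro h0
  apply hy
  funext a
  have h1 := Periodic_cert h y a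
  rw [h0] at h1
  simp only [Pi.zero_apply, mul_zero, Finset.sum_const_zero] at h1
  exact (pow_eq_zero_iff (by have := hF.two_le; omega)).1 h1

theorem iter_ne_zeroL {d : ℕ} {F : Fin (ν + 1) → MvPolynomial (Fin (ν + 1)) K}
    (hF : IsEndo d fun i => map (algebraMap K ℂ) (F i)) {L : Type} [Field L] [Algebra K L]
    {y : Fin (ν + 1) → L} (hy : y ≠ 0) (n : ℕ) : iter F y n ≠ 0 := by
  induction n with
  | zero => exact hy
  | succ n ih =>
    rw [Pool.Agent.Helper36.iter_succ]
    exact step_ne_zeroL hF ih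

theorem iter_smulL {d : ℕ} {F : Fin (ν + 1) → MvPolynomial (Fin (ν + 1)) K}
    (hF : ∀ i, (F i).IsHomogeneous d) {L : Type} [Field L] [Algebra K L]
    (c : L) (y : Fin (ν + 1) → L) (n : ℕ) : iter F (c • y) n = c ^ d ^ n • iter F y n := by
  induction n with
  | zero => simp [Pool.Agent.Helper36.iter_zero]
  | succ n ih =>
    rw [Pool.Agent.Helper36.iter_succ, Pool.Agent.Helper36.iter_succ, ih]
    funext i
    rw [Pi.smul_apply, smul_eq_mul, pow_succ, pow_mul]
    exact Pool.Agent.Helper36.aeval_smul_homogeneous (hF i) (c ^ d ^ n) (iter F y n)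

end

variable {k K : Type} [Field k] [IsAlgClosed k] [Field K] [Algebra k K] [Algebra K ℂ]

theorem growthL (hK : IsFunctionField k K) {d : ℕ} {F : Fin (ν + 1) → MvPolynomial (Fin (ν + 1)) K}
    (hF : IsEndo d fun i => map (algebraMap K ℂ) (F i)) :
    ∃ C : ℤ, 0 ≤ C ∧ ∀ (L : Type) [Field L] [Algebra k L] [Algebra K L] [IsScalarTower k K L]
      [FiniteDimensional K L] (y : Fin (ν + 1) → L), y ≠ 0 →
      (d : ℤ) * ht k y ≤ ht k (step F y) + C * (Module.finrank K L : ℤ) := by
  classical
  obtain ⟨M, q, hq, h⟩ := exists_nullstellensatz (L := ℂ) F (fun i => homog_of_endo hF i)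
    (growth_aeval_zero hF)
  choose C hC0 hC using fun a : Fin (ν + 1) × Fin (ν + 1) => Scale_gs hK (q a)
  refine ⟨∑ a, C a, Finset.sum_nonneg fun a _ => hC0 a, ?_⟩
  intro L _ _ _ _ _ y hy
  have hL := Pool.Agent.Helper89.TC.isFunctionField_of_finite L hK
  set c : Place k L → ℤ := fun v =>
    ∑ a : Fin (ν + 1) × Fin (ν + 1), max 0 (WithZero.log (gs v (map (algebraMap K L) (q a)))) with hc
  have hcs : (Function.support c).Finite := by
    refine (Set.finite_iUnion fun a : Fin (ν + 1) × Fin (ν + 1) => (hC a L).1).subset fun v hv => ?_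
    rw [Function.mem_support] at hv
    by_contra hcon
    apply hv
    simp only [Set.mem_iUnion, Function.mem_support, not_exists, not_not] at hcon
    simp only [hc]
    exact Finset.sum_eq_zero fun a _ => hcon a
  have hsum : ∑ᶠ v : Place k L, c v ≤ (∑ a, C a) * (Module.finrank K L : ℤ) := by
    rw [hc, finsum_sum_comm _ _ fun a _ => (hC a L).1, Finset.sum_mul]
    exact Finset.sum_le_sum fun a _ => (hC a L).2
  have hcq : ∀ (v : Place k L) a, gs v (map (algebraMap K L) (q a)) ≤ WithZero.exp (c v) := by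
    intro v a
    apply WithZero.le_exp_of_log_le
    have h1 : max 0 (WithZero.log (gs v (map (algebraMap K L) (q a)))) ≤ c v :=
      Finset.single_le_sum
        (f := fun a => max 0 (WithZero.log (gs v (map (algebraMap K L) (q a)))))
        (fun i _ => le_max_left _ _) (Finset.mem_univ a)
    exact (le_max_right 0 _).trans h1
  have hs := step_ne_zeroL hF hy
  have hloc : ∀ v : Place k L, (d : ℤ) * WithZero.log (nrm v y) ≤
      WithZero.log (nrm v (step F y)) + c v := by
    intro v
    have hn0 := nrm_ne_zero (b := v) hy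
    have hs0 := nrm_ne_zero (b := v) hs
    have he0 : WithZero.exp (c v) ≠ 0 := WithZero.exp_ne_zero
    obtain ⟨i, hi⟩ := exists_val_eq_nrm v y
    have h1 : v.val (y i ^ (M + d)) ≤
        WithZero.exp (c v) * nrm v y ^ M * nrm v (step F y) := by
      rw [Periodic_cert h y i]
      refine v.val.map_sum_le fun j _ => ?_
      rw [map_mul]
      exact mul_le_mul' ((low_val_eval_le v ((hq _).map _) y).trans
        (mul_le_mul' (hcq v _) le_rfl)) (val_le_nrm v (step F y) j)
    rw [map_pow, hi, ← WithZero.log_le_log (pow_ne_zero _ hn0)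
      (mul_ne_zero (mul_ne_zero he0 (pow_ne_zero _ hn0)) hs0),
      WithZero.log_mul (mul_ne_zero he0 (pow_ne_zero _ hn0)) hs0,
      WithZero.log_mul he0 (pow_ne_zero _ hn0), WithZero.log_exp, WithZero.log_pow,
      WithZero.log_pow, nsmul_eq_mul, nsmul_eq_mul] at h1
    push_cast at h1
    linarith
  have h1 := nrm_support hL y hy
  have h2 := nrm_support hL _ hs
  have h3 : (Function.support fun v : Place k L => (d : ℤ) * WithZero.log (nrm v y)).Finite := by
    refine h1.subset fun b hb => ?_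
    rw [Function.mem_support] at hb ⊢
    exact right_ne_zero_of_mul hb
  have h4 : ∑ᶠ v : Place k L, (d : ℤ) * WithZero.log (nrm v y) ≤
      ∑ᶠ v : Place k L, (WithZero.log (nrm v (step F y)) + c v) :=
    finsum_le_finsum' h3 ((h2.union hcs).subset (Function.support_add _ _)) hloc
  rw [finsum_add_distrib h2 hcs, ← mul_finsum] at h4
  unfold ht
  linarith

theorem exists_ht_bound (hK : IsFunctionField k K) {d : ℕ} {F : Fin (ν + 1) → MvPolynomial (Fin (ν + 1)) K}
    (hF : IsEndo d fun i => map (algebraMap K ℂ) (F i)) :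
    ∃ C : ℤ, 0 ≤ C ∧ ∀ (L : Type) [Field L] [Algebra k L] [Algebra K L] [IsScalarTower k K L]
      [FiniteDimensional K L] (w : Fin (ν + 1) → L) (N : ℕ) (γ : L), w ≠ 0 → 0 < N →
      iter F w N = γ • w → ht k w ≤ C * (Module.finrank K L : ℤ) := by
  obtain ⟨C, hC0, hC⟩ := growthL hK hF
  refine ⟨C, hC0, ?_⟩
  intro L _ _ _ _ _ w N γ hw hN hiter
  have hL := Pool.Agent.Helper89.TC.isFunctionField_of_finite L hK
  have hd : (2 : ℤ) ≤ d := by exact_mod_cast hF.two_le
  set f : ℤ := C * (Module.finrank K L : ℤ) with hf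
  have hf0 : 0 ≤ f := mul_nonneg hC0 (by positivity)
  have key : ∀ n : ℕ, (d : ℤ) ^ n * (ht k w - f) ≤ ht k (iter F w n) - f := by
    intro n
    induction n with
    | zero => simp [Pool.Agent.Helper36.iter_zero]
    | succ n ih =>
      have h1 := hC L (iter F w n) (iter_ne_zeroL hF hw n)
      rw [← Pool.Agent.Helper36.iter_succ, ← hf] at h1
      have h2 : (d : ℤ) * ((d : ℤ) ^ n * (ht k w - f)) ≤ d * (ht k (iter F w n) - f) :=
        mul_le_mul_of_nonneg_left ih (by linarith)
      have h3 : 2 * f ≤ d * f := mul_le_mul_of_nonneg_right hd hf0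
      rw [pow_succ]
      linarith
  have hγ : γ ≠ 0 := by
    rintro rfl
    rw [zero_smul] at hiter
    exact iter_ne_zeroL hF hw N hiter
  have h1 := key N
  rw [hiter, ht_smul hL hγ hw] at h1
  by_contra hcon
  push Not at hcon
  have h2 : (2 : ℤ) ≤ (d : ℤ) ^ N := by
    calc (2 : ℤ) ≤ d := hd
      _ = (d : ℤ) ^ 1 := (pow_one _).symm
      _ ≤ (d : ℤ) ^ N := pow_le_pow_right₀ (by linarith) hN
  nlinarith

end Pool.Agent.Helper38.TNA
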