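import Pool.Agent.Helper38.TNA.Hilb
import Pool.Agent.Helper38.TNA.Per
import Pool.Agent.Helper30.ZB.Main

/-!
# Curves with infinitely many periodic points
-/

set_option autoImplicit false

namespace Pool.Agent.Helper38.TNA

open MvPolynomial
open Pool.Agent.Helper16 (Place IsFunctionField)
open Pool.Agent.Helper36 (step iter)
open Pool.Agent.Helper38.TQ
open Pool.Agent.Helper30.TKN
open Pool.Agent.Helper63.TN
open Pool.Agent.Helper30.ZB

variable {ν : ℕ}

section

variable {K : Type} [Field K]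

/-- Values of the composition with an iterate. -/
theorem aeval_pull {L : Type} [Field L] [Algebra K L]
    (F : Fin (ν + 1) → MvPolynomial (Fin (ν + 1)) K)
    (G : MvPolynomial (Fin (ν + 1)) K) (N : ℕ) (y : Fin (ν + 1) → L) :
    aeval y (pull F N G) = aeval (iter F y N) G := by
  unfold pull
  induction N generalizing G with
  | zero => rfl
  | succ N ih =>
    rw [Function.iterate_succ_apply, ih, Pool.Agent.Helper36.iter_succ]
    exact comp_aeval_apply (R := K) F (aeval (iter F y N)) G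

/-- There is a generator which does not vanish identically on the image. -/
theorem exists_gens {I : Ideal (MvPolynomial (Fin (ν + 1)) K)} (hp : I.IsPrime) (hI : Hom I)
    {F : Fin (ν + 1) → MvPolynomial (Fin (ν + 1)) K} (hnp : NonPer I F) :
    ∃ S : Finset (MvPolynomial (Fin (ν + 1)) K), (∀ h ∈ S, h ∈ I ∧ ∃ e, 0 < e ∧
      h.IsHomogeneous e) ∧ ∀ N, 0 < N → ∃ h ∈ S, h ∉ img F N I := by
  classical
  obtain ⟨T, hT⟩ : I.FG := IsNoetherian.noetherian I
  refine ⟨(T.biUnion fun g => (Finset.range (g.totalDegree + 1)).image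
    fun n => homogeneousComponent n g).filter fun h => ∃ e, 0 < e ∧ h.IsHomogeneous e, ?_, ?_⟩
  · intro h hh
    rw [Finset.mem_filter] at hh
    refine ⟨?_, hh.2⟩
    obtain ⟨g, hg, hh1⟩ := Finset.mem_biUnion.1 hh.1
    obtain ⟨n, -, rfl⟩ := Finset.mem_image.1 hh1
    exact hI g (hT ▸ Ideal.subset_span hg) n
  · intro N hN
    by_contra hcon
    push Not at hcon
    obtain ⟨h, hhI, e, hhe, hh⟩ := hnp N hN
    apply hh
    have hle : I ≤ img F N I := by
      rw [← hT, Ideal.span_le]
      intro g hg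
      have hgI : g ∈ I := hT ▸ Ideal.subset_span hg
      rw [SetLike.mem_coe, ← sum_homogeneousComponent g, hT]
      refine Ideal.sum_mem _ fun n hn => ?_
      rcases Nat.eq_zero_or_pos n with rfl | hn0
      · have h1 := hI g hgI 0
        rw [homogeneousComponent_zero] at h1 ⊢
        have h2 : coeff 0 g = 0 := by
          by_contra hne
          exact hp.ne_top (Ideal.eq_top_of_isUnit_mem _ h1 ((isUnit_iff_ne_zero.2 hne).map C))
        rw [h2, C_0]
        exact Ideal.zero_mem _
      · refine hcon _ (Finset.mem_filter.2 ⟨Finset.mem_biUnion.2 ⟨g, hg,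
          Finset.mem_image_of_mem _ hn⟩, n, hn0, homogeneousComponent_isHomogeneous n g⟩)
    exact mem_img.1 (hle hhI)

end

section

variable {k K : Type} [Field k] [Field K] [Algebra k K]

/-- A form which vanishes at too many points of the curve belongs to the ideal. -/
theorem bound_points [Infinite k] {I : Ideal (MvPolynomial (Fin (ν + 1)) K)} (hI : IsCurve I)
    {h : MvPolynomial (Fin (ν + 1)) K} {e : ℕ} (hh : h.IsHomogeneous e) (hhI : h ∉ I) :
    ∃ B : ℕ, ∀ (L : Type) [Field L] [Algebra K L] (s : ℕ) (w : Fin s → Fin (ν + 1) → L),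
      (∀ j, OnI I (w j) ∧ aeval (w j) h = 0) → (∀ i j, i ≠ j → ¬ PEq (w i) (w j)) → s ≤ B := by
  classical
  rcases Nat.eq_zero_or_pos e with rfl | he
  · -- a constant form
    refine ⟨0, fun L _ _ s w hw _ => ?_⟩
    by_contra hs
    push Not at hs
    have h1 : h = C (coeff 0 h) := by
      have h3 : homogeneousComponent 0 h = h := by
        rw [homogeneousComponent_of_mem hh, if_pos rfl]
      rw [homogeneousComponent_zero] at h3
      exact h3.symm
    have h2 := (hw ⟨0, hs⟩).2
    rw [h1, aeval_C] at h2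
    have h3 : coeff 0 h = 0 := (map_eq_zero_iff _ (algebraMap K L).injective).1 h2
    rw [h3, C_0] at h1
    exact hhI (h1 ▸ I.zero_mem)
  · obtain ⟨R₀, hR⟩ := hilb hI
    obtain ⟨c, m₁, hmiss⟩ := Lin_exists (k := k) (I := I ⊔ Ideal.span {h}) (B := e * R₀)
      (fun m₀ => Main_bounded hI.prime hI.hom hR he hh hhI m₀)
    have hIh : Hom (I ⊔ Ideal.span {h}) := Dim_hom_sup hI.hom hh
    obtain ⟨hfin, -⟩ := Quot_main hIh hmiss
    refine ⟨Module.finrank K (Qo (I ⊔ Ideal.span {h}) c), fun L _ _ s w hw hne => ?_⟩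
    have hz : ∀ j, ∃ (ψ : Qo (I ⊔ Ideal.span {h}) c →ₐ[K] L) (a : L), a ≠ 0 ∧
        w j = fun i => a * ψ (cls (I ⊔ Ideal.span {h}) c (X i)) := by
      intro j
      refine Pts_zero hIh hmiss L (w j) (hw j).1.1 ?_
      intro g hg
      obtain ⟨g₁, hg₁, g₂, hg₂, rfl⟩ := Submodule.mem_sup.1 hg
      obtain ⟨u, rfl⟩ := Ideal.mem_span_singleton'.1 hg₂
      rw [map_add, (hw j).1.2 g₁ hg₁, map_mul, (hw j).2, mul_zero, add_zero]
    choose ψ a ha hψ using hz
    have hinj : Function.Injective ψ := by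
      intro i j hij
      by_contra hne'
      apply hne i j hne'
      refine ⟨a j * (a i)⁻¹, mul_ne_zero (ha j) (inv_ne_zero (ha i)), ?_⟩
      rw [hψ j, hψ i, hij]
      funext l
      simp only [Pi.smul_apply, smul_eq_mul]
      field_simp [ha i]
    have hli := linearIndependent_toLinearMap K (Qo (I ⊔ Ideal.span {h}) c) L
    have hli2 := hli.comp ψ hinj
    have h1 := hli2.fintype_card_le_finrank
    rw [Fintype.card_fin] at h1
    have h2 : Module.finrank L (Qo (I ⊔ Ideal.span {h}) c →ₗ[K] L) =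
        Module.finrank K (Qo (I ⊔ Ideal.span {h}) c) := by
      rw [Module.finrank_linearMap_self]
    rwa [h2] at h1

/-- **Curves with infinitely many periodic points**: the heights of the returns which are not the
last one are bounded. -/
theorem ht_return_le [IsAlgClosed k] [CharZero k] [Algebra K ℂ] (hK : IsFunctionField k K) {d : ℕ}
    {F : Fin (ν + 1) → MvPolynomial (Fin (ν + 1)) K}
    (hF : IsEndo d fun i => map (algebraMap K ℂ) (F i))
    {I : Ideal (MvPolynomial (Fin (ν + 1)) K)} (hI : IsCurve I)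
    (hnp : NonPer I F) (hmany : ManyPer k I F) (x : Fin (ν + 1) → K) :
    ∃ B : ℤ, ∀ i n, i < n → OnI I (iter F x i) → OnI I (iter F x n) →
      ht k (iter F x i) ≤ B := by
  classical
  have : Infinite k := IsAlgClosed.instInfinite
  have hFh := fun i => homog_of_endo hF i
  have hd : 0 < d := by have := hF.two_le; omega
  obtain ⟨S, hS1, hS2⟩ := exists_gens hI.prime hI.hom hnp
  obtain ⟨R₀, hR⟩ := hilb hI
  obtain ⟨C₁, hC₁, hper⟩ := exists_ht_bound (k := k) hK hF
  obtain ⟨C₂, hC₂, hgr⟩ := growth (k := k) hK hF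
  choose Ch hCh0 hCh using fun h : MvPolynomial (Fin (ν + 1)) K => Scale_gs (k := k) hK h
  choose e he hhe using fun h : S => (hS1 h.1 h.2).2
  -- the bound for the point on the image
  have key : ∀ N, 0 < N → ∀ y : Fin (ν + 1) → K, OnI I y → OnI I (iter F y N) →
      ht k (iter F y N) ≤ (d : ℤ) ^ N * ∑ h : S, R₀ * (2 * e h * C₁ + Ch h) := by
    intro N hN y hy hyN
    obtain ⟨h, hhS, hhJ⟩ := hS2 N hN
    let J := img F N I
    have hJp : J.IsPrime := img_prime hI.prime
    have hJh : Hom J := img_hom hd hFh hI.hom N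
    let T : Set (FPt ν k K) := {P | ∃ w : Fin (ν + 1) → P.L, OnI I w ∧ IsPer F w ∧
      P.y = iter F w N}
    have hdense : Dense J T := by
      intro g m hg hgJ
      by_contra hcon
      push Not at hcon
      have h1 : pull F N g ∉ I := fun h => hgJ (mem_img.2 h)
      obtain ⟨B, hB⟩ := bound_points (k := k) hI (pull_isHomogeneous hFh hg N) h1
      obtain ⟨L, i1, i2, i3, i4, i5, w, hw, hne⟩ := hmany (B + 1)
      have h2 := hB L (B + 1) w (fun j => ⟨(hw j).1, ?_⟩) hne
      · omega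
      · rw [aeval_pull]
        exact hcon { L := L, y := iter F (w j) N, ne := iter_ne_zeroL hF (hw j).1.1 N }
          ⟨w j, (hw j).1, (hw j).2, rfl⟩
    have hTJ : ∀ P ∈ T, ∀ g ∈ J, aeval P.y g = 0 := by
      rintro P ⟨w, hw, -, hP⟩ g hg
      rw [hP, ← aeval_pull]
      exact hw.2 _ (mem_img.1 hg)
    have hTs : ∀ P ∈ T, ht k P.y ≤ C₁ * Module.finrank K P.L := by
      rintro P ⟨w, hw, ⟨M, hM, γ, hγ⟩, hP⟩
      rw [hP]
      have h2 : iter F (iter F w N) M = (γ ^ d ^ N) • iter F w N := by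
        rw [← Pool.Agent.Helper36.iter_add, Nat.add_comm M N, Pool.Agent.Helper36.iter_add, hγ,
          iter_smulL hFh]
      exact hper P.L (iter F w N) M _ (iter_ne_zeroL hF hw.1 N) hM h2
    have hRJ : ∀ m, R J m ≤ R₀ * d ^ N * m + R₀ := by
      intro m
      calc R J m ≤ R I (m * d ^ N) := R_img_le hFh I N m
        _ ≤ R₀ * (m * d ^ N) + R₀ := hR _
        _ = _ := by ring
    have h3 := zhang_bezout hK hJp hJh hRJ (he ⟨h, hhS⟩) (hhe ⟨h, hhS⟩) hhJ (hCh0 h) (hCh h)
      hC₁ hdense hTJ hTs (y := iter F y N) hyN.1 (fun g hg => by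
        have h4 := aeval_pull (L := K) F g N y
        rw [← h4]
        exact hy.2 _ (mem_img.1 hg)) (hyN.2 h (hS1 h hhS).1)
    refine h3.trans ?_
    have h5 : (R₀ : ℤ) * (2 * e ⟨h, hhS⟩ * C₁ + Ch h) ≤
        ∑ h : S, (R₀ : ℤ) * (2 * e h * C₁ + Ch h) :=
      Finset.single_le_sum (f := fun h : S => (R₀ : ℤ) * (2 * e h * C₁ + Ch h))
        (fun i _ => by
          have := hCh0 i.1
          positivity) (Finset.mem_univ (⟨h, hhS⟩ : S))
    push_cast
    calc (R₀ : ℤ) * (d : ℤ) ^ N * (2 * e ⟨h, hhS⟩ * C₁ + Ch h) =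
        (d : ℤ) ^ N * (R₀ * (2 * e ⟨h, hhS⟩ * C₁ + Ch h)) := by ring
      _ ≤ _ := mul_le_mul_of_nonneg_left h5 (by positivity)
  -- the growth
  have hlow : ∀ (y : Fin (ν + 1) → K), y ≠ 0 → ∀ N : ℕ,
      (d : ℤ) ^ N * (ht k y - C₂) ≤ ht k (iter F y N) - C₂ := by
    intro y hy N
    have hd2 : (2 : ℤ) ≤ d := by exact_mod_cast hF.two_le
    induction N with
    | zero => simp [Pool.Agent.Helper36.iter_zero]
    | succ N ih =>
      have h1 := hgr (iter F y N) (iter_ne_zeroK hF hy N)
      rw [← Pool.Agent.Helper36.iter_succ] at h1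
      have h2 := (abs_le.1 h1).1
      have h3 : (d : ℤ) * ((d : ℤ) ^ N * (ht k y - C₂)) ≤ d * (ht k (iter F y N) - C₂) :=
        mul_le_mul_of_nonneg_left ih (by linarith)
      have h4 : 2 * C₂ ≤ d * C₂ := mul_le_mul_of_nonneg_right hd2 hC₂
      rw [pow_succ]
      linarith
  refine ⟨(∑ h : S, R₀ * (2 * e h * C₁ + Ch h)) + C₂, fun i n hin hi hn => ?_⟩
  obtain ⟨N, rfl⟩ : ∃ N, n = i + N := ⟨n - i, by omega⟩
  have hN : 0 < N := by omega
  have h1 : iter F x (i + N) = iter F (iter F x i) N := by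
    rw [Nat.add_comm i N, Pool.Agent.Helper36.iter_add]
  rw [h1] at hn
  have h2 := key N hN _ hi hn
  have h3 := hlow _ hi.1 N
  have h4 : (d : ℤ) ^ N * (ht k (iter F x i) - C₂) ≤
      (d : ℤ) ^ N * ∑ h : S, R₀ * (2 * e h * C₁ + Ch h) := by linarith
  have h5 := le_of_mul_le_mul_left h4 (by positivity)
  linarith

/-- On a curve which is not periodic but contains many periodic points there are only finitely
many points of an orbit of unbounded height. -/
theorem caseA [IsAlgClosed k] [CharZero k] [Algebra K ℂ] (hK : IsFunctionField k K) {d : ℕ}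
    {F : Fin (ν + 1) → MvPolynomial (Fin (ν + 1)) K}
    (hF : IsEndo d fun i => map (algebraMap K ℂ) (F i))
    {I : Ideal (MvPolynomial (Fin (ν + 1)) K)} (hI : IsCurve I)
    (hnp : NonPer I F) (hmany : ManyPer k I F) {x : Fin (ν + 1) → K} (hx : x ≠ 0)
    (hunb : ∀ B : ℤ, ∃ n, B < ht k (iter F x n)) :
    {n | OnI I (iter F x n)}.Finite := by
  obtain ⟨B, hB⟩ := ht_return_le hK hF hI hnp hmany x
  obtain ⟨n₁, hn₁⟩ := ht_growth hK hF hx hunb |B|
  by_cases h : ∃ i, n₁ ≤ i ∧ OnI I (iter F x i)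
  · obtain ⟨i, hi, hiI⟩ := h
    refine (Set.finite_Iic i).subset fun n hn => ?_
    rw [Set.mem_Iic]
    by_contra hcon
    push Not at hcon
    have h1 := hB i n hcon hiI hn
    have h2 := hn₁ i hi
    have h3 : |B| ≤ |B| * ((i : ℤ) + 1) := by
      have := abs_nonneg B
      nlinarith
    have h4 := le_abs_self B
    linarith
  · push Not at h
    refine (Set.finite_Iio n₁).subset fun n hn => ?_
    rw [Set.mem_Iio]
    by_contra hcon
    push Not at hcon
    exact h n hcon hn

end

end Pool.Agent.Helper38.TNA
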