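import Pool.Agent.Helper63.TN.FinalC
import Pool.Agent.Helper38.TQK.Wrap
import Pool.Agent.Helper38.TQK.Const

/-!
# Curves in projective space: all points of unbounded height, elementary form
-/

set_option autoImplicit false

namespace Pool.Agent.Helper38.TNA

open MvPolynomial
open Pool.Agent.Helper16 (Place IsFunctionField)
open Pool.Agent.Helper36 (step iter iter_zero iter_succ iter_succ' iter_add iter_map)
open Pool.Agent.Helper38.TQ
open Pool.Agent.Helper30.TKN
open Pool.Agent.Helper38.TQK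

variable {ν : ℕ}

/-- The theorem on curves, with the format of finite unions of progressions used here. -/
theorem tn_fu {k K : Type} [Field k] [IsAlgClosed k] [Field K] [Algebra k K] [Algebra k ℂ]
    [Algebra K ℂ] [IsScalarTower k K ℂ] (hK : IsFunctionField k K) {d : ℕ}
    {F : Fin (ν + 1) → MvPolynomial (Fin (ν + 1)) K}
    (hF : IsEndo d fun i => map (algebraMap K ℂ) (F i)) {x : Fin (ν + 1) → K} (hx : x ≠ 0)
    (hunb : ∀ B : ℤ, ∃ n, B < Pool.Agent.Helper38.TQ.ht k (iter F x n)) (c : ℂ) (hc : c ≠ 0)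
    {S₀ : Set (MvPolynomial (Fin (ν + 1)) ℂ)} (hS₀ : ∀ g ∈ S₀, ∃ e, g.IsHomogeneous e)
    (hcurve : CurveSet S₀) :
    ∃ T : Finset (ℕ × ℕ), {n : ℕ | ∀ g ∈ S₀,
        eval ((fun (x : Fin (ν + 1) → ℂ) (i : Fin (ν + 1)) =>
          eval x (map (algebraMap K ℂ) (F i)))^[n] (fun i => c * algebraMap K ℂ (x i))) g = 0} =
      {n : ℕ | ∃ q ∈ T, ∃ m : ℕ, n = q.1 * m + q.2} := by
  classical
  obtain ⟨m, a, q, h⟩ := Pool.Agent.Helper63.TN.tn_dml hK hF hx hunb c hc hS₀ hcurve
  refine ⟨Finset.univ.image fun j => (q j, a j), ?_⟩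
  ext n
  rw [Set.mem_setOf_eq, Set.mem_setOf_eq]
  refine (h n).trans ?_
  constructor
  · rintro ⟨j, t, rfl⟩
    exact ⟨(q j, a j), Finset.mem_image_of_mem _ (Finset.mem_univ j), t, by ring⟩
  · rintro ⟨p, hp, t, rfl⟩
    obtain ⟨j, -, rfl⟩ := Finset.mem_image.1 hp
    exact ⟨j, t, by ring⟩

/-- **Curves over function fields, elementary form.** -/
theorem curves_all {k : Type} [Field k] [IsAlgClosed k] [Algebra k ℂ] {t : ℂ}
    (ht : t ∉ Set.range (algebraMap k ℂ)) {d : ℕ}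
    {f : Fin (ν + 1) → MvPolynomial (Fin (ν + 1)) ℂ} (hf : IsEndo d f)
    (hfc : ∀ i m, Alg k t ((f i).coeff m)) {a : Fin (ν + 1) → ℂ} (ha : a ≠ 0)
    (hac : ∀ i, Alg k t (a i))
    (hunb : ∀ D, ∃ n, ¬ HeightLe k t D
      ((fun (x : Fin (ν + 1) → ℂ) (i : Fin (ν + 1)) => eval x (f i))^[n] a))
    {S : Set (MvPolynomial (Fin (ν + 1)) ℂ)} (hS : ∀ g ∈ S, ∃ e, g.IsHomogeneous e)
    (hcur : CurveSet S) :
    ∃ T : Finset (ℕ × ℕ), {n : ℕ | ∀ g ∈ S,
        eval ((fun (x : Fin (ν + 1) → ℂ) (i : Fin (ν + 1)) => eval x (f i))^[n] a) g = 0} =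
      {n : ℕ | ∃ q ∈ T, ∃ m : ℕ, n = q.1 * m + q.2} := by
  classical
  obtain ⟨K, F, x, hK, htK, hFf, hxa, hx, hF⟩ := exists_data ht hf hfc ha hac
  have hFf' : (fun i => map (algebraMap K ℂ) (F i)) = f := funext hFf
  have hxa' : (fun i => (1 : ℂ) * algebraMap K ℂ (x i)) = a := by
    funext i
    rw [one_mul, hxa]
  have horb : ∀ n, (fun (x : Fin (ν + 1) → ℂ) (i : Fin (ν + 1)) => eval x (f i))^[n] a =
      fun i => algebraMap K ℂ (iter F x n i) := by
    intro n
    have h2 := orbit_complex hF x 1 n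
    rw [hxa', one_pow, one_smul] at h2
    rw [← h2, ← hFf']
  have hunb' : ∀ B : ℤ, ∃ n, B < Pool.Agent.Helper38.TQ.ht k (iter F x n) := by
    intro B
    by_contra hcon
    push Not at hcon
    obtain ⟨D, hD⟩ := heightLe_of_ht (ν := ν) hK htK B
    obtain ⟨n, hn⟩ := hunb D
    apply hn
    rw [horb]
    exact hD _ (hcon n)
  have h2 := tn_fu hK hF hx hunb' 1 one_ne_zero hS hcur
  rw [hxa'] at h2
  simp only [hFf] at h2
  exact h2

/-- **Curves, maps over the constants.** The return set of a point which is not defined over `k` to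
a closed set of dimension at most one is a finite union of progressions. -/
theorem dml_curve_all {k : Type} [Field k] [IsAlgClosed k] [Algebra k ℂ] {d : ℕ}
    {F : Fin (ν + 1) → MvPolynomial (Fin (ν + 1)) k} (hF : IsEndo d F)
    {a : Fin (ν + 1) → ℂ} (ha0 : a ≠ 0) (hac : ¬ IsConst k a)
    {S : Set (MvPolynomial (Fin (ν + 1)) ℂ)} (hS : ∀ g ∈ S, ∃ e, g.IsHomogeneous e)
    (hcur : CurveSet S) :
    ∃ T : Finset (ℕ × ℕ), {n : ℕ | ∀ g ∈ S, eval (iter F a n) g = 0} =
      {n : ℕ | ∃ q ∈ T, ∃ m : ℕ, n = q.1 * m + q.2} := by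
  classical
  obtain ⟨i₀, hi₀⟩ := Function.ne_iff.1 ha0
  have hi₀' : a i₀ ≠ 0 := hi₀
  set v : Fin (ν + 1) → ℂ := (a i₀)⁻¹ • a with hv
  have hv1 : v i₀ = 1 := by
    rw [hv, Pi.smul_apply, smul_eq_mul, inv_mul_cancel₀ hi₀']
  have hvc : ¬ IsConst k v := by rwa [hv, isConst_smul (inv_ne_zero hi₀')]
  obtain ⟨k', _, _, _, _, _, hvc', hK⟩ := exists_function_field v i₀ hv1 hvc
  set K := IntermediateField.adjoin k' (Set.range v)
  let y : Fin (ν + 1) → K := fun i => ⟨v i, IntermediateField.subset_adjoin _ _ ⟨i, rfl⟩⟩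
  have hyv : (fun i => algebraMap K ℂ (y i)) = v := rfl
  have hy0 : y ≠ 0 := by
    intro h
    have h1 := congrArg (fun w : Fin (ν + 1) → K => algebraMap K ℂ (w i₀)) h
    simp only [Pi.zero_apply, map_zero] at h1
    have h2 : algebraMap K ℂ (y i₀) = v i₀ := rfl
    rw [h2, hv1] at h1
    exact one_ne_zero h1
  have hyc : ¬ IsConst k' y := by
    rintro ⟨w, c, hc0, hw⟩
    apply hvc'
    refine ⟨w, algebraMap K ℂ c, by simpa using hc0, ?_⟩
    rw [← hyv, hw]
    funext i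
    rw [map_mul, ← IsScalarTower.algebraMap_apply]
  have hF' := hF.map (k' := k')
  have hay : (fun i => a i₀ * algebraMap K ℂ (y i)) = a := by
    funext i
    have h6 : algebraMap K ℂ (y i) = (a i₀)⁻¹ * a i := rfl
    rw [h6, ← mul_assoc, mul_inv_cancel₀ hi₀', one_mul]
  -- the map over `K`
  set FK : Fin (ν + 1) → MvPolynomial (Fin (ν + 1)) K := fun i =>
    map (algebraMap k' K) (map (algebraMap k k') (F i)) with hFK
  have hFKC : ∀ i, map (algebraMap K ℂ) (FK i) = map (algebraMap k ℂ) (F i) := by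
    intro i
    rw [hFK]
    simp only [map_map]
    congr 2
    refine RingHom.ext fun c => ?_
    change algebraMap K ℂ (algebraMap k' K (algebraMap k k' c)) = algebraMap k ℂ c
    rw [← IsScalarTower.algebraMap_apply k' K ℂ, ← IsScalarTower.algebraMap_apply k k' ℂ]
  have hFC : IsEndo d fun i => map (algebraMap K ℂ) (FK i) := by
    have h1 := hF.map (k' := ℂ)
    have h2 : (fun i => map (algebraMap K ℂ) (FK i)) = fun i => map (algebraMap k ℂ) (F i) :=
      funext hFKC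
    rw [h2]
    exact h1
  have hitK : ∀ n, iter FK y n = iter (fun i => map (algebraMap k k') (F i)) y n := fun n =>
    iter_map_base _ y n
  have hunb : ∀ B : ℤ, ∃ n, B < Pool.Agent.Helper38.TQ.ht k' (iter FK y n) := by
    intro B
    refine ⟨B.toNat, ?_⟩
    rw [hitK]
    exact (Int.self_le_toNat B).trans_lt (ht_iter_large hK hF' hy0 hyc _)
  have horb : ∀ n, iter F a n = (a i₀) ^ d ^ n • fun i => algebraMap K ℂ (iter FK y n i) := by
    intro n
    have h4 := orbit_eq (k' := k') (K := K) hF y (a i₀) n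
    rw [hay] at h4
    rw [h4, hitK]
  have h2 := tn_fu hK hFC hy0 hunb (a i₀) hi₀' hS hcur
  obtain ⟨T, hT⟩ := h2
  refine ⟨T, ?_⟩
  rw [← hT]
  ext n
  have horb2 : (fun (x : Fin (ν + 1) → ℂ) (i : Fin (ν + 1)) => eval x
      (map (algebraMap K ℂ) (FK i)))^[n] (fun i => a i₀ * algebraMap K ℂ (y i)) =
        iter F a n := by
    rw [orbit_complex hFC, horb]
  simp only [Set.mem_ofPred_eq, horb2]

end Pool.Agent.Helper38.TNA
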