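import Pool.Agent.Helper30.ZB.Dim
import Pool.Agent.Helper63.TN.Defs

/-!
# Dimensions of the spaces of forms on a curve and on its images
-/

set_option autoImplicit false

namespace Pool.Agent.Helper38.TNA

open MvPolynomial
open Pool.Agent.Helper36 (step iter)
open Pool.Agent.Helper63.TN
open Pool.Agent.Helper30.ZB

variable {ν : ℕ} {K : Type} [Field K]

/-- The composition with the `r`-th iterate of `F`, as a homomorphism. -/
noncomputable def pullHom (F : Fin (ν + 1) → MvPolynomial (Fin (ν + 1)) K) (r : ℕ) :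
    MvPolynomial (Fin (ν + 1)) K →ₐ[K] MvPolynomial (Fin (ν + 1)) K :=
  (aeval F : MvPolynomial (Fin (ν + 1)) K →ₐ[K] MvPolynomial (Fin (ν + 1)) K) ^ r

theorem pullHom_apply (F : Fin (ν + 1) → MvPolynomial (Fin (ν + 1)) K) (r : ℕ)
    (G : MvPolynomial (Fin (ν + 1)) K) : pullHom F r G = pull F r G := by
  unfold pullHom pull
  induction r generalizing G with
  | zero => rfl
  | succ r ih =>
    rw [pow_succ, Function.iterate_succ_apply, ← ih]
    rfl

/-- The ideal of the image of the zero set of `I` under the `r`-th iterate. -/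
noncomputable def img (F : Fin (ν + 1) → MvPolynomial (Fin (ν + 1)) K) (r : ℕ)
    (I : Ideal (MvPolynomial (Fin (ν + 1)) K)) : Ideal (MvPolynomial (Fin (ν + 1)) K) :=
  I.comap (pullHom F r)

theorem mem_img {F : Fin (ν + 1) → MvPolynomial (Fin (ν + 1)) K} {r : ℕ}
    {I : Ideal (MvPolynomial (Fin (ν + 1)) K)} {G : MvPolynomial (Fin (ν + 1)) K} :
    G ∈ img F r I ↔ pull F r G ∈ I := by
  rw [← pullHom_apply]
  exact Iff.rfl

theorem pull_isHomogeneous {d : ℕ} {F : Fin (ν + 1) → MvPolynomial (Fin (ν + 1)) K}
    (hF : ∀ i, (F i).IsHomogeneous d) {G : MvPolynomial (Fin (ν + 1)) K} {m : ℕ}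
    (hG : G.IsHomogeneous m) (r : ℕ) : (pull F r G).IsHomogeneous (m * d ^ r) := by
  unfold pull
  induction r generalizing G m with
  | zero => simpa using hG
  | succ r ih =>
    rw [Function.iterate_succ_apply]
    have h1 : (aeval F G : MvPolynomial (Fin (ν + 1)) K).IsHomogeneous (m * d) := by
      rw [mul_comm]
      exact hG.aeval F hF
    have h2 := ih h1
    rwa [mul_assoc, ← pow_succ'] at h2

theorem img_prime {F : Fin (ν + 1) → MvPolynomial (Fin (ν + 1)) K} {r : ℕ}
    {I : Ideal (MvPolynomial (Fin (ν + 1)) K)} (hI : I.IsPrime) : (img F r I).IsPrime :=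
  Ideal.IsPrime.comap (pullHom F r)

theorem homogeneousComponent_pull {d : ℕ} (hd : 0 < d)
    {F : Fin (ν + 1) → MvPolynomial (Fin (ν + 1)) K}
    (hF : ∀ i, (F i).IsHomogeneous d) (G : MvPolynomial (Fin (ν + 1)) K) (m r : ℕ) :
    homogeneousComponent (m * d ^ r) (pull F r G) = pull F r (homogeneousComponent m G) := by
  classical
  rw [← pullHom_apply, ← pullHom_apply]
  conv_lhs => rw [← sum_homogeneousComponent G, map_sum, map_sum]
  by_cases hm : m ∈ Finset.range (G.totalDegree + 1)
  · rw [Finset.sum_eq_single_of_mem m hm]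
    · rw [homogeneousComponent_of_mem (by
        rw [mem_homogeneousSubmodule, pullHom_apply]
        exact pull_isHomogeneous hF (homogeneousComponent_isHomogeneous _ _) r), if_pos rfl]
    · intro j _ hj
      rw [homogeneousComponent_of_mem (by
        rw [mem_homogeneousSubmodule, pullHom_apply]
        exact pull_isHomogeneous hF (homogeneousComponent_isHomogeneous _ _) r), if_neg]
      intro h
      exact hj (Nat.eq_of_mul_eq_mul_right (pow_pos hd r) h).symm
  · rw [Finset.sum_eq_zero, homogeneousComponent_eq_zero, map_zero]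
    · rw [Finset.mem_range] at hm
      omega
    · intro j hj
      rw [homogeneousComponent_of_mem (by
        rw [mem_homogeneousSubmodule, pullHom_apply]
        exact pull_isHomogeneous hF (homogeneousComponent_isHomogeneous _ _) r), if_neg]
      intro h
      apply hm
      rwa [Nat.eq_of_mul_eq_mul_right (pow_pos hd r) h]

theorem img_hom {d : ℕ} (hd : 0 < d) {F : Fin (ν + 1) → MvPolynomial (Fin (ν + 1)) K}
    (hF : ∀ i, (F i).IsHomogeneous d) {I : Ideal (MvPolynomial (Fin (ν + 1)) K)}
    (hI : Hom I) (r : ℕ) : Hom (img F r I) := by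
  intro p hp m
  rw [mem_img] at hp ⊢
  rw [← homogeneousComponent_pull hd hF]
  exact hI _ hp _

/-- The dimensions for the image. -/
theorem R_img_le {d : ℕ} {F : Fin (ν + 1) → MvPolynomial (Fin (ν + 1)) K}
    (hF : ∀ i, (F i).IsHomogeneous d) (I : Ideal (MvPolynomial (Fin (ν + 1)) K)) (r m : ℕ) :
    R (img F r I) m ≤ R I (m * d ^ r) := by
  let φ : (MvPolynomial (Fin (ν + 1)) K ⧸ img F r I) →ₐ[K] (MvPolynomial (Fin (ν + 1)) K ⧸ I) :=
    Ideal.quotientMapₐ I (pullHom F r) le_rfl
  have hφ : Function.Injective φ := by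
    intro x y hxy
    obtain ⟨x, rfl⟩ := Ideal.Quotient.mk_surjective x
    obtain ⟨y, rfl⟩ := Ideal.Quotient.mk_surjective y
    have h1 : Ideal.Quotient.mk I (pullHom F r x) = Ideal.Quotient.mk I (pullHom F r y) := hxy
    rw [Ideal.Quotient.eq] at h1 ⊢
    rw [← map_sub] at h1
    exact h1
  have := Dim_finite I (m * d ^ r)
  have h1 : (W (img F r I) m).map φ.toLinearMap ≤ W I (m * d ^ r) := by
    rintro _ ⟨_, ⟨G, hG, rfl⟩, rfl⟩
    refine ⟨pullHom F r G, ?_, rfl⟩
    rw [SetLike.mem_coe, mem_homogeneousSubmodule, pullHom_apply]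
    exact pull_isHomogeneous hF hG r
  have h2 := Submodule.finrank_mono h1
  have h3 : Module.finrank K ((W (img F r I) m).map φ.toLinearMap) = R (img F r I) m :=
    (LinearEquiv.finrank_eq (Submodule.equivMapOfInjective φ.toLinearMap hφ _)).symm
  rw [h3] at h2
  exact h2

/-- The monomial `m` times powers of two forms, of total degree `n`. -/
noncomputable def gen (l₀ l₁ : MvPolynomial (Fin (ν + 1)) K) (n a : ℕ) (m : Fin (ν + 1) →₀ ℕ) :
    MvPolynomial (Fin (ν + 1)) K :=
  l₀ ^ a * l₁ ^ (n - m.degree - a) * monomial m 1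

/-- The index set of the generators. -/
def idx (ν S n : ℕ) : Set (ℕ × (Fin (ν + 1) →₀ ℕ)) :=
  {p | p.2.degree < S ∧ p.1 + p.2.degree ≤ n}

theorem exists_large {m : Fin (ν + 1) →₀ ℕ} {s : ℕ} (h : s * (ν + 1) ≤ m.degree) :
    ∃ i, s ≤ m i := by
  by_contra hcon
  push Not at hcon
  have h1 : m.degree < s * (ν + 1) := by
    rw [Finsupp.degree_eq_sum]
    calc ∑ i, m i < ∑ _i : Fin (ν + 1), s :=
          Finset.sum_lt_sum_of_nonempty ⟨0, Finset.mem_univ _⟩ fun i _ => hcon i
      _ = s * (ν + 1) := by simp [mul_comm]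
  omega

theorem degree_eq {G : MvPolynomial (Fin (ν + 1)) K} {n : ℕ} (hG : G.IsHomogeneous n)
    {m : Fin (ν + 1) →₀ ℕ} (hm : m ∈ G.support) : m.degree = n := by
  rw [Finsupp.degree_eq_weight_one]
  exact hG (mem_support_iff.1 hm)

theorem mem_sup_of_large {I : Ideal (MvPolynomial (Fin (ν + 1)) K)}
    {l₀ l₁ : MvPolynomial (Fin (ν + 1)) K} {s : ℕ}
    (h : ∀ i, (X i ^ s : MvPolynomial (Fin (ν + 1)) K) ∈ I ⊔ Ideal.span {l₀, l₁}) {n : ℕ}
    (hn : s * (ν + 1) ≤ n) {G : MvPolynomial (Fin (ν + 1)) K} (hG : G.IsHomogeneous n) :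
    G ∈ I ⊔ Ideal.span {l₀, l₁} := by
  classical
  rw [G.as_sum]
  refine Ideal.sum_mem _ fun m hm => ?_
  have hdeg : m.degree = n := degree_eq hG hm
  obtain ⟨i, hi⟩ := exists_large (m := m) (s := s) (by omega)
  have h1 : monomial m (G.coeff m) =
      (X i ^ s : MvPolynomial (Fin (ν + 1)) K) *
        monomial (m - Finsupp.single i s) (G.coeff m) := by
    rw [X_pow_eq_monomial, monomial_mul, one_mul]
    congr 1
    rw [add_tsub_cancel_of_le]
    rw [Finsupp.single_le_iff]
    exact hi
  rw [h1]
  exact Ideal.mul_mem_right _ _ (h i)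

theorem exists_span {I : Ideal (MvPolynomial (Fin (ν + 1)) K)} (hI : Hom I)
    {l₀ l₁ : MvPolynomial (Fin (ν + 1)) K} (h₀ : l₀.IsHomogeneous 1) (h₁ : l₁.IsHomogeneous 1)
    {s : ℕ} (h : ∀ i, (X i ^ s : MvPolynomial (Fin (ν + 1)) K) ∈ I ⊔ Ideal.span {l₀, l₁}) (n : ℕ) :
    ∀ G : MvPolynomial (Fin (ν + 1)) K, G.IsHomogeneous n →
      ∃ G' ∈ Submodule.span K ((fun p => gen l₀ l₁ n p.1 p.2) '' idx ν (s * (ν + 1)) n),
        G - G' ∈ I := by
  classical
  induction n with
  | zero =>
    intro G hG
    by_cases hs : s * (ν + 1) = 0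
    · have h1 := mem_sup_of_large h (by omega) hG
      obtain ⟨ι, hι, y, hy, hxy⟩ := Submodule.mem_sup.1 h1
      obtain ⟨A, B, hAB⟩ := Ideal.mem_span_pair.1 hy
      refine ⟨0, Submodule.zero_mem _, ?_⟩
      have h2 : G = homogeneousComponent 0 ι := by
        have h3 : homogeneousComponent 0 G = G := by
          rw [homogeneousComponent_of_mem hG, if_pos rfl]
        have h4 : homogeneousComponent 0 y = 0 := by
          rw [← hAB, homogeneousComponent_zero, coeff_add]
          have h5 : ∀ (A l : MvPolynomial (Fin (ν + 1)) K), l.IsHomogeneous 1 →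
              coeff 0 (A * l) = 0 := by
            intro A l hl
            have h6 : coeff 0 l = 0 := by
              by_contra hne
              have := hl hne
              simp at this
            have h7 : constantCoeff (A * l) = constantCoeff A * constantCoeff l := map_mul _ _ _
            have h8 : constantCoeff l = 0 := h6
            rw [h8, mul_zero] at h7
            exact h7
          rw [h5 A l₀ h₀, h5 B l₁ h₁, add_zero, C_0]
        conv_lhs => rw [← h3, ← hxy, map_add, h4, add_zero]
      rw [sub_zero, h2]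
      exact hI _ hι 0
    · refine ⟨G, ?_, by rw [sub_self]; exact I.zero_mem⟩
      have h1 : G = C (coeff 0 G) := by
        have h3 : homogeneousComponent 0 G = G := by
          rw [homogeneousComponent_of_mem hG, if_pos rfl]
        rw [homogeneousComponent_zero] at h3
        exact h3.symm
      have h2 : G = (coeff 0 G) • gen l₀ l₁ 0 0 0 := by
        conv_lhs => rw [h1]
        unfold gen
        simp [smul_eq_C_mul]
      rw [h2]
      refine Submodule.smul_mem _ _ (Submodule.subset_span ⟨(0, 0), ?_, rfl⟩)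
      refine ⟨?_, ?_⟩
      · simp only [map_zero]
        omega
      · simp
  | succ n ih =>
    intro G hG
    by_cases hs : s * (ν + 1) ≤ n + 1
    · have h1 := mem_sup_of_large h hs hG
      obtain ⟨ι, hι, y, hy, hxy⟩ := Submodule.mem_sup.1 h1
      obtain ⟨A, B, hAB⟩ := Ideal.mem_span_pair.1 hy
      have h3 : homogeneousComponent (n + 1) G = G := by
        rw [homogeneousComponent_of_mem hG, if_pos rfl]
      have h4 : ∀ (A l : MvPolynomial (Fin (ν + 1)) K), l.IsHomogeneous 1 →
          homogeneousComponent (n + 1) (A * l) = homogeneousComponent n A * l := by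
        intro A l hl
        rw [mul_comm]
        have h9 : ∀ j, homogeneousComponent (n + 1) (l * homogeneousComponent j A) =
            if j = n then l * homogeneousComponent n A else 0 := by
          intro j
          have h10 : (l * homogeneousComponent j A).IsHomogeneous (1 + j) :=
            hl.mul (homogeneousComponent_isHomogeneous j A)
          rw [homogeneousComponent_of_mem h10]
          by_cases hj : j = n
          · subst hj
            rw [if_pos (by omega), if_pos rfl]
          · rw [if_neg (by omega), if_neg hj]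
        conv_lhs => rw [← sum_homogeneousComponent A, Finset.mul_sum, map_sum]
        rw [Finset.sum_congr rfl fun j _ => h9 j, Finset.sum_ite_eq', mul_comm]
        split_ifs with hn
        · rfl
        · rw [homogeneousComponent_eq_zero, zero_mul]
          rw [Finset.mem_range] at hn
          omega
      have h5 : G = homogeneousComponent (n + 1) ι + (homogeneousComponent n A * l₀ +
          homogeneousComponent n B * l₁) := by
        conv_lhs => rw [← h3, ← hxy, map_add, ← hAB, map_add, h4 A l₀ h₀, h4 B l₁ h₁]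
      obtain ⟨A', hA', hA''⟩ := ih _ (homogeneousComponent_isHomogeneous n A)
      obtain ⟨B', hB', hB''⟩ := ih _ (homogeneousComponent_isHomogeneous n B)
      refine ⟨A' * l₀ + B' * l₁, ?_, ?_⟩
      · refine Submodule.add_mem _ ?_ ?_
        · refine Submodule.span_induction (p := fun x _ => x * l₀ ∈ _) ?_ ?_ ?_ ?_ hA'
          · rintro _ ⟨p, hp, rfl⟩
            refine Submodule.subset_span ⟨(p.1 + 1, p.2), ⟨hp.1, ?_⟩, ?_⟩
            · have := hp.2
              simp only
              omega
            · unfold gen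
              have := hp.2
              simp only
              rw [show n + 1 - p.2.degree - (p.1 + 1) = n - p.2.degree - p.1 by omega]
              ring
          · rw [zero_mul]; exact Submodule.zero_mem _
          · intro x y _ _ hx hy
            rw [add_mul]; exact Submodule.add_mem _ hx hy
          · intro a x _ hx
            rw [smul_mul_assoc]; exact Submodule.smul_mem _ _ hx
        · refine Submodule.span_induction (p := fun x _ => x * l₁ ∈ _) ?_ ?_ ?_ ?_ hB'
          · rintro _ ⟨p, hp, rfl⟩
            refine Submodule.subset_span ⟨(p.1, p.2), ⟨hp.1, ?_⟩, ?_⟩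
            · have := hp.2
              simp only
              omega
            · unfold gen
              have := hp.2
              simp only
              rw [show n + 1 - p.2.degree - p.1 = n - p.2.degree - p.1 + 1 by omega]
              ring
          · rw [zero_mul]; exact Submodule.zero_mem _
          · intro x y _ _ hx hy
            rw [add_mul]; exact Submodule.add_mem _ hx hy
          · intro a x _ hx
            rw [smul_mul_assoc]; exact Submodule.smul_mem _ _ hx
      · rw [h5]
        have h6 : homogeneousComponent (n + 1) ι + (homogeneousComponent n A * l₀ +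
            homogeneousComponent n B * l₁) - (A' * l₀ + B' * l₁) =
            homogeneousComponent (n + 1) ι + ((homogeneousComponent n A - A') * l₀ +
              (homogeneousComponent n B - B') * l₁) := by ring
        rw [h6]
        exact I.add_mem (hI _ hι _) (I.add_mem (I.mul_mem_right _ hA'') (I.mul_mem_right _ hB''))
    · refine ⟨G, ?_, by rw [sub_self]; exact I.zero_mem⟩
      rw [G.as_sum]
      refine Submodule.sum_mem _ fun m hm => ?_
      have hdeg : m.degree = n + 1 := degree_eq hG hm
      have h2 : monomial m (G.coeff m) = (G.coeff m) • gen l₀ l₁ (n + 1) 0 m := by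
        unfold gen
        rw [hdeg]
        simp [smul_monomial]
      rw [h2]
      refine Submodule.smul_mem _ _ (Submodule.subset_span ⟨(0, m), ⟨?_, ?_⟩, rfl⟩)
      · simp only
        omega
      · simp only
        omega

/-- The dimensions of the spaces of forms on a curve are bounded by a linear function. -/
theorem hilb {I : Ideal (MvPolynomial (Fin (ν + 1)) K)} (hI : IsCurve I) :
    ∃ R₀ : ℕ, ∀ n, R I n ≤ R₀ * n + R₀ := by
  classical
  obtain ⟨a₀, a₁, s, hs⟩ := hI.fin
  set l₀ : MvPolynomial (Fin (ν + 1)) K := ∑ j, C (a₀ j) * X j with hl₀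
  set l₁ : MvPolynomial (Fin (ν + 1)) K := ∑ j, C (a₁ j) * X j with hl₁
  have hlin : ∀ a : Fin (ν + 1) → K,
      (∑ j, C (a j) * X j : MvPolynomial (Fin (ν + 1)) K).IsHomogeneous 1 := by
    intro a
    refine IsHomogeneous.sum _ _ _ fun j _ => ?_
    have := (isHomogeneous_C (Fin (ν + 1)) (a j)).mul (isHomogeneous_X K j)
    simpa using this
  set S := s * (ν + 1) with hS
  have hfin : {m : Fin (ν + 1) →₀ ℕ | m.degree < S}.Finite := by
    refine (Set.finite_Iic (Finsupp.equivFunOnFinite.symm fun _ => S)).subset fun m hm => ?_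
    rw [Set.mem_Iic]
    intro i
    have h1 : m i ≤ m.degree := Finsupp.le_degree i m
    have h2 : m.degree < S := hm
    have h3 : (Finsupp.equivFunOnFinite.symm fun _ : Fin (ν + 1) => S) i = S := rfl
    rw [h3]
    omega
  refine ⟨hfin.toFinset.card, fun n => ?_⟩
  have hidx : (idx ν S n).Finite := by
    refine ((Set.finite_Iic n).prod hfin).subset fun p hp => ?_
    refine ⟨?_, hp.1⟩
    have := hp.2
    rw [Set.mem_Iic]
    omega
  have hcard : hidx.toFinset.card ≤ (n + 1) * hfin.toFinset.card := by
    have h1 : hidx.toFinset ⊆ Finset.range (n + 1) ×ˢ hfin.toFinset := by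
      intro p hp
      rw [Set.Finite.mem_toFinset] at hp
      rw [Finset.mem_product, Set.Finite.mem_toFinset, Finset.mem_range]
      have := hp.2
      exact ⟨by omega, hp.1⟩
    have h2 := Finset.card_le_card h1
    rwa [Finset.card_product, Finset.card_range] at h2
  have h1 : W I n ≤ Submodule.span K (((fun p : ℕ × (Fin (ν + 1) →₀ ℕ) =>
      Ideal.Quotient.mk I (gen l₀ l₁ n p.1 p.2)) '' idx ν S n)) := by
    rintro _ ⟨G, hG, rfl⟩
    obtain ⟨G', hG', hGG'⟩ := exists_span hI.hom (hlin a₀) (hlin a₁) hs n G hG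
    have h2 : (Ideal.Quotient.mkₐ K I).toLinearMap G = Ideal.Quotient.mk I G' := by
      show Ideal.Quotient.mk I G = _
      rw [Ideal.Quotient.eq]
      exact hGG'
    rw [h2]
    have h3 := Submodule.mem_map_of_mem (f := (Ideal.Quotient.mkₐ K I).toLinearMap) hG'
    rw [Submodule.map_span, Set.image_image] at h3
    exact h3
  have hf2 := hidx.image (fun p : ℕ × (Fin (ν + 1) →₀ ℕ) =>
      Ideal.Quotient.mk I (gen l₀ l₁ n p.1 p.2))
  have h2 : R I n ≤ Module.finrank K (Submodule.span K (((fun p : ℕ × (Fin (ν + 1) →₀ ℕ) =>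
      Ideal.Quotient.mk I (gen l₀ l₁ n p.1 p.2)) '' idx ν S n))) := by
    have : FiniteDimensional K (Submodule.span K (((fun p : ℕ × (Fin (ν + 1) →₀ ℕ) =>
      Ideal.Quotient.mk I (gen l₀ l₁ n p.1 p.2)) '' idx ν S n))) :=
      FiniteDimensional.span_of_finite K hf2
    exact Submodule.finrank_mono h1
  refine h2.trans ?_
  letI : Fintype (((fun p : ℕ × (Fin (ν + 1) →₀ ℕ) =>
      Ideal.Quotient.mk I (gen l₀ l₁ n p.1 p.2)) '' idx ν S n)) := hf2.fintype
  have h4 := finrank_span_le_card (R := K) (((fun p : ℕ × (Fin (ν + 1) →₀ ℕ) =>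
      Ideal.Quotient.mk I (gen l₀ l₁ n p.1 p.2)) '' idx ν S n))
  refine h4.trans ?_
  have h5 : (((fun p : ℕ × (Fin (ν + 1) →₀ ℕ) =>
      Ideal.Quotient.mk I (gen l₀ l₁ n p.1 p.2)) '' idx ν S n)).toFinset ⊆
      hidx.toFinset.image (fun p : ℕ × (Fin (ν + 1) →₀ ℕ) =>
      Ideal.Quotient.mk I (gen l₀ l₁ n p.1 p.2)) := by
    intro x hx
    rw [Set.mem_toFinset] at hx
    obtain ⟨p, hp, rfl⟩ := hx
    exact Finset.mem_image.2 ⟨p, hidx.mem_toFinset.2 hp, rfl⟩
  calc _ ≤ _ := Finset.card_le_card h5
    _ ≤ hidx.toFinset.card := Finset.card_image_le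
    _ ≤ (n + 1) * hfin.toFinset.card := hcard
    _ = _ := by ring

end Pool.Agent.Helper38.TNA
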