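import Mathlib
import Pool.Agent.Helper38.TNA.WrapN
import Pool.Agent.Helper30.RED.CurveN
import Pool.Agent.Helper38.PC.AP
import Pool.Agent.Helper89.TNG.Gaps

/-!
# MP_b15c9e_ag: points of unbounded height

Let `k` be an algebraically closed subfield of `ℂ`. A point `a` of projective space and an
endomorphism `Φ` have unbounded height over `k` if `Φ` is defined over `k` and `a` is not, or if
both are defined over a finite extension of `k(t)`, `t ∉ k`, and the heights over `k(t)` of the
points `Φⁿ(a)` are unbounded. Such points have the Dynamical Mordell-Lang property for all closed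
sets of dimension at most one, in all dimensions; for the plane, for all closed sets. (The format
is that of frozen statement `S00381`.) Consequence: every return set over `ℂ` of this kind is the
intersection of a finite union of progressions and of finitely many return sets of this kind over
the algebraic numbers.
-/

set_option autoImplicit false

namespace Pool.Agent.Results.MP_b15c9e_ag.FunctionFieldPoints

open MvPolynomial

/-- The forms `f` of degree `d ≥ 2` have no common zero, so define an endomorphism of projective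
space `P^N`. -/
def Endomorphism {N : ℕ} (d : ℕ) (f : Fin (N + 1) → MvPolynomial (Fin (N + 1)) ℂ) : Prop :=
  2 ≤ d ∧ (∀ i, (f i).IsHomogeneous d) ∧ ∀ x : Fin (N + 1) → ℂ, (∀ i, eval x (f i) = 0) → x = 0

/-- The `n`-th iterate of `a`. -/
noncomputable def orbit {N : ℕ} (f : Fin (N + 1) → MvPolynomial (Fin (N + 1)) ℂ)
    (a : Fin (N + 1) → ℂ) (n : ℕ) : Fin (N + 1) → ℂ :=
  (fun x : Fin (N + 1) → ℂ => fun i => eval x (f i))^[n] a

/-- The return set of `a` to the common zeros of the forms in `S`. -/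
def returnSet {N : ℕ} (f : Fin (N + 1) → MvPolynomial (Fin (N + 1)) ℂ) (a : Fin (N + 1) → ℂ)
    (S : Set (MvPolynomial (Fin (N + 1)) ℂ)) : Set ℕ :=
  {n : ℕ | ∀ g ∈ S, eval (orbit f a n) g = 0}

/-- A finite union of arithmetic progressions. -/
def FiniteUnion (R : Set ℕ) : Prop :=
  ∃ T : Finset (ℕ × ℕ), R = {n : ℕ | ∃ p ∈ T, ∃ m : ℕ, n = p.1 * m + p.2}

/-- The set `S` consists of forms and, unless `N = 2`, the closed set of their common zeros has
dimension at most one. -/
def Small {N : ℕ} (S : Set (MvPolynomial (Fin (N + 1)) ℂ)) : Prop :=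
  (∀ g ∈ S, ∃ e : ℕ, g.IsHomogeneous e) ∧
    (N = 2 ∨ ringKrullDim (MvPolynomial (Fin (N + 1)) ℂ ⧸ Ideal.span S) ≤ 2)

/-- A finite union of arithmetic progressions, together with finitely many sets in which the
distances between different elements tend to infinity. -/
def UpToGaps (R : Set ℕ) : Prop :=
  ∃ (P : Set ℕ) (t : ℕ) (E : Fin t → Set ℕ), FiniteUnion P ∧
    (∀ j, ∀ l : ℕ, 0 < l → {n | n ∈ E j ∧ n + l ∈ E j}.Finite) ∧ R = P ∪ ⋃ j, E j

/-- The return sets of `a` to the closed sets of dimension at most one (`N = 2`: to all closed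
sets) are finite unions of arithmetic progressions, and the ones to the closed sets of dimension
two are, up to sets with gaps which tend to infinity. -/
def Property {N : ℕ} (f : Fin (N + 1) → MvPolynomial (Fin (N + 1)) ℂ)
    (a : Fin (N + 1) → ℂ) : Prop :=
  (∀ S : Set (MvPolynomial (Fin (N + 1)) ℂ), Small S → FiniteUnion (returnSet f a S)) ∧
    ∀ S : Set (MvPolynomial (Fin (N + 1)) ℂ), (∀ g ∈ S, ∃ e : ℕ, g.IsHomogeneous e) →
      ringKrullDim (MvPolynomial (Fin (N + 1)) ℂ ⧸ Ideal.span S) ≤ 3 →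
        UpToGaps (returnSet f a S)

/-- The point `a` of projective space has homogeneous coordinates in `k`. -/
def DefinedOver {N : ℕ} (k : Subfield ℂ) (a : Fin (N + 1) → ℂ) : Prop :=
  ∃ c : ℂ, c ≠ 0 ∧ ∀ i, c * a i ∈ k

/-- The numbers `t` and `c` satisfy a relation over `k` of degree at most `D`. -/
def Rel (k : Subfield ℂ) (t : ℂ) (D : ℕ) (c : ℂ) : Prop :=
  ∃ P : MvPolynomial (Fin 2) k, P ≠ 0 ∧ P.totalDegree ≤ D ∧ aeval ![t, c] P = 0

/-- The points `Φⁿ(a)` have unbounded height over `k`: the map is defined over `k` and the point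
is not, or they are defined over a finite extension of `k(t)`, where `t ∉ k`, and the heights over
`k(t)` of the points `Φⁿ(a)` are not bounded. -/
def Unbounded {N : ℕ} (k : Subfield ℂ) (f : Fin (N + 1) → MvPolynomial (Fin (N + 1)) ℂ)
    (a : Fin (N + 1) → ℂ) : Prop :=
  ((∀ i m, (f i).coeff m ∈ k) ∧ ¬ DefinedOver k a) ∨
    ∃ t : ℂ, t ∉ k ∧ (∀ i m, ∃ D, Rel k t D ((f i).coeff m)) ∧ (∀ i, ∃ D, Rel k t D (a i)) ∧
      ∀ D : ℕ, ∃ (n : ℕ) (i j : Fin (N + 1)), orbit f a n j ≠ 0 ∧
        ¬ Rel k t D (orbit f a n i / orbit f a n j)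

/-- An endomorphism `φ` of degree `d` of `P^N`, a point `z` and a closed set given by the forms in
`Γ`, all with algebraic coefficients; the closed set has dimension at most one unless `N = 2`. -/
def Algebraic {N : ℕ} (d : ℕ) (φ : Fin (N + 1) → MvPolynomial (Fin (N + 1)) ℂ)
    (z : Fin (N + 1) → ℂ) (Γ : Set (MvPolynomial (Fin (N + 1)) ℂ)) : Prop :=
  Endomorphism d φ ∧ z ≠ 0 ∧ Small Γ ∧ (∀ i m, IsAlgebraic ℚ ((φ i).coeff m)) ∧
    (∀ i, IsAlgebraic ℚ (z i)) ∧ ∀ g ∈ Γ, ∀ m, IsAlgebraic ℚ (g.coeff m)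

theorem isEndo {N : ℕ} {d : ℕ} {f : Fin (N + 1) → MvPolynomial (Fin (N + 1)) ℂ}
    (h : Endomorphism d f) : Pool.Agent.Helper38.TQ.IsEndo d f := ⟨h.1, h.2.1, h.2.2⟩

/-- A proper closed subset of the plane has dimension at most one. -/
theorem krullDim_le_two {N : ℕ} (hN : N ≤ 2) (S : Set (MvPolynomial (Fin (N + 1)) ℂ))
    {g : MvPolynomial (Fin (N + 1)) ℂ} (hg : g ∈ S) (hg0 : g ≠ 0) :
    ringKrullDim (MvPolynomial (Fin (N + 1)) ℂ ⧸ Ideal.span S) ≤ 2 := by
  have h1 : ringKrullDim (MvPolynomial (Fin (N + 1)) ℂ ⧸ Ideal.span {g}) + 1 ≤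
      ringKrullDim (MvPolynomial (Fin (N + 1)) ℂ) :=
    ringKrullDim_quotient_succ_le_of_nonZeroDivisor (mem_nonZeroDivisors_of_ne_zero hg0)
  rw [MvPolynomial.ringKrullDim_of_isNoetherianRing, ringKrullDim_eq_zero_of_field, zero_add,
    Nat.card_fin] at h1
  have hle : Ideal.span {g} ≤ Ideal.span S := Ideal.span_mono (by simpa using hg)
  have h2 : ringKrullDim (MvPolynomial (Fin (N + 1)) ℂ ⧸ Ideal.span S) ≤
      ringKrullDim (MvPolynomial (Fin (N + 1)) ℂ ⧸ Ideal.span {g}) :=
    ringKrullDim_le_of_surjective (Ideal.Quotient.factor hle)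
      (Ideal.Quotient.factor_surjective hle)
  refine h2.trans ?_
  have h3 : ((N + 1 : ℕ) : WithBot ℕ∞) ≤ 2 + 1 := by
    have : (N + 1 : ℕ) ≤ 3 := by omega
    calc ((N + 1 : ℕ) : WithBot ℕ∞) ≤ ((3 : ℕ) : WithBot ℕ∞) := by exact_mod_cast this
      _ = 2 + 1 := by norm_num
  have h4 := h1.trans h3
  generalize ringKrullDim (MvPolynomial (Fin (N + 1)) ℂ ⧸ Ideal.span {g}) = D at h4
  induction D using WithBot.recBotCoe with
  | bot => exact bot_le
  | coe D =>
    have h5 : D + 1 ≤ 2 + 1 := WithBot.coe_le_coe.1 h4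
    have h6 : D ≤ 2 := (ENat.add_le_add_iff_right ENat.one_ne_top).1 h5
    exact WithBot.coe_le_coe.2 h6

theorem finiteUnion_univ : FiniteUnion Set.univ :=
  ⟨{(1, 0)}, by
    ext n
    simp only [Set.mem_univ, Set.mem_ofPred_eq, Finset.mem_singleton, exists_eq_left, true_iff]
    exact ⟨n, by ring⟩⟩

/-- A small set of forms has a return set which is everything, or its closed set has dimension at
most one. -/
theorem cases_small {N : ℕ} (f : Fin (N + 1) → MvPolynomial (Fin (N + 1)) ℂ)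
    (a : Fin (N + 1) → ℂ) {S : Set (MvPolynomial (Fin (N + 1)) ℂ)} (hS : Small S) :
    returnSet f a S = Set.univ ∨
      ringKrullDim (MvPolynomial (Fin (N + 1)) ℂ ⧸ Ideal.span S) ≤ 2 := by
  by_cases hall : ∀ g ∈ S, g = 0
  · left
    ext n
    simp only [returnSet, Set.mem_ofPred_eq, Set.mem_univ, iff_true]
    intro g hg
    rw [hall g hg, map_zero]
  · right
    push Not at hall
    obtain ⟨g, hg, hg0⟩ := hall
    rcases hS.2 with hN | hdim
    · exact krullDim_le_two (by omega) S hg hg0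
    · exact hdim

/-- Reduction to sets of dimension at most one. -/
theorem of_curve {N : ℕ} (f : Fin (N + 1) → MvPolynomial (Fin (N + 1)) ℂ)
    (a : Fin (N + 1) → ℂ) {S : Set (MvPolynomial (Fin (N + 1)) ℂ)} (hS : Small S)
    (h : Pool.Agent.Helper38.TQ.CurveSet S → FiniteUnion (returnSet f a S)) :
    FiniteUnion (returnSet f a S) := by
  rcases cases_small f a hS with h1 | h1
  · rw [h1]
    exact finiteUnion_univ
  · exact h (Pool.Agent.Helper38.TQ.curveSet_of_krull hS.1 h1)

/-- A map over `k` and its orbits. -/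
theorem exists_lift (k : Subfield ℂ) [IsAlgClosed k] {N d : ℕ}
    (f : Fin (N + 1) → MvPolynomial (Fin (N + 1)) ℂ) (hf : Endomorphism d f)
    (hk : (∀ i m, (f i).coeff m ∈ k)) :
    ∃ F : Fin (N + 1) → MvPolynomial (Fin (N + 1)) k, Pool.Agent.Helper38.TQ.IsEndo d F ∧
      ∀ (a : Fin (N + 1) → ℂ) (n : ℕ), Pool.Agent.Helper36.iter F a n = orbit f a n := by
  obtain ⟨hd, hh, hnz⟩ := hf
  have hlift : ∀ i, ∃ g : MvPolynomial (Fin (N + 1)) k, map (algebraMap k ℂ) g = f i := by
    intro i
    have h1 : f i ∈ Set.range (map (σ := Fin (N + 1)) (algebraMap k ℂ)) := by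
      rw [mem_range_map_iff_coeffs_subset]
      intro c hc
      obtain ⟨m, hm⟩ := mem_coeffs_iff.1 hc
      exact ⟨⟨c, by rw [hm.2]; exact hk i m⟩, rfl⟩
    exact h1
  choose F hF using hlift
  refine ⟨F, ⟨hd, fun i => ?_, fun x hx => ?_⟩, fun a n => ?_⟩
  · have := hh i
    rw [← hF i] at this
    exact this.of_map (algebraMap k ℂ).injective
  · have h1 : (fun i => algebraMap k ℂ (x i)) = 0 := by
      apply hnz
      intro i
      rw [← hF i, ← Pool.Agent.Helper38.Sym.map_eval_gen, hx i, map_zero]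
    funext i
    have h2 := congrFun h1 i
    simpa using h2
  · have h1 : Pool.Agent.Helper36.step F =
        fun x : Fin (N + 1) → ℂ => fun i => eval x (f i) := by
      funext x i
      rw [← hF i, eval_map]
      rfl
    unfold orbit
    rw [← h1]
    rfl

theorem not_isConst (k : Subfield ℂ) {N : ℕ} {a : Fin (N + 1) → ℂ} (h : ¬ DefinedOver k a) :
    ¬ Pool.Agent.Helper38.TQ.IsConst k a := by
  rintro ⟨z, c, hc, h1⟩
  apply h
  refine ⟨c⁻¹, inv_ne_zero hc, fun i => ?_⟩
  rw [h1, ← mul_assoc, inv_mul_cancel₀ hc, one_mul]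
  exact (z i).2

theorem alg_of_rel {k : Subfield ℂ} {t c : ℂ} (h : ∃ D, Rel k t D c) :
    Pool.Agent.Helper38.TQK.Alg k t c := by
  obtain ⟨D, P, hP0, -, hP⟩ := h
  exact ⟨P, hP0, hP⟩

/-- Points of unbounded height. -/
theorem unbounded (k : Subfield ℂ) [IsAlgClosed k] {N d : ℕ}
    (f : Fin (N + 1) → MvPolynomial (Fin (N + 1)) ℂ) (hf : Endomorphism d f)
    (a : Fin (N + 1) → ℂ) (ha : a ≠ 0) (hunb : Unbounded k f a)
    {S : Set (MvPolynomial (Fin (N + 1)) ℂ)} (hS : Small S) :
    FiniteUnion (returnSet f a S) := by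
  refine of_curve f a hS fun hcur => ?_
  rcases hunb with ⟨hk, hak⟩ | ⟨t, ht, hfc, hac, hunb⟩
  · obtain ⟨F, hF, horb⟩ := exists_lift k f hf hk
    have h := Pool.Agent.Helper38.TNA.dml_curve_all hF ha (not_isConst k hak) hS.1 hcur
    simp only [horb] at h
    exact h
  · refine Pool.Agent.Helper38.TNA.curves_all (t := t) ?_ (isEndo hf)
      (fun i m => alg_of_rel (hfc i m)) ha (fun i => alg_of_rel (hac i)) ?_ hS.1 hcur
    · rintro ⟨c, hc⟩
      exact ht (hc ▸ c.2)
    · intro D
      obtain ⟨n, i, j, hj, hn⟩ := hunb D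
      exact ⟨n, fun hle => hn (hle i j hj)⟩

/-- Closed sets of dimension two. -/
theorem property {N d : ℕ} {f : Fin (N + 1) → MvPolynomial (Fin (N + 1)) ℂ}
    (hf : Endomorphism d f) {a : Fin (N + 1) → ℂ}
    (h : ∀ S : Set (MvPolynomial (Fin (N + 1)) ℂ), Small S → FiniteUnion (returnSet f a S)) :
    Property f a := by
  refine ⟨h, fun S hS hdim => ?_⟩
  obtain ⟨P, t, E, hP, hE, hR⟩ := Pool.Agent.Helper89.TNG.gaps (y := orbit f a) hf.2.1
    (fun n => Function.iterate_succ_apply' _ n a) (m := 2)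
    (fun S' hS' hdim' => h S' ⟨hS', Or.inr hdim'⟩) (S := S) hS (by
      refine hdim.trans_eq ?_
      norm_num)
  exact ⟨P, t, E, hP, hE, hR⟩

/-- A countable algebraically closed field containing the coefficients. -/
theorem exists_countable_field {N : ℕ} (f : Fin (N + 1) → MvPolynomial (Fin (N + 1)) ℂ) :
    ∃ k : Subfield ℂ, IsAlgClosed k ∧ (k : Set ℂ).Countable ∧ (∀ i m, (f i).coeff m ∈ k) := by
  classical
  set s : Set ℂ := ⋃ i, ((f i).coeffs : Set ℂ) with hs
  have hsc : s.Countable := Set.countable_iUnion fun i => (f i).coeffs.countable_toSet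
  set K₀ : Subfield ℂ := Subfield.closure s with hK₀
  have hK₀c : Cardinal.mk K₀ ≤ Cardinal.aleph0 := by
    refine (Subfield.cardinalMk_closure_le_max s).trans ?_
    rw [max_le_iff]
    exact ⟨Cardinal.mk_le_aleph0_iff.2 hsc.to_subtype, le_rfl⟩
  set k' : IntermediateField K₀ ℂ := algebraicClosure K₀ ℂ with hk'
  have hk'c : Cardinal.mk k' ≤ Cardinal.aleph0 := by
    refine (Algebra.IsAlgebraic.cardinalMk_le_max K₀ k').trans ?_
    rw [max_le_iff]
    exact ⟨hK₀c, le_rfl⟩
  have hac : IsAlgClosed k' := (algebraicClosure.isAlgClosure K₀ ℂ).isAlgClosed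
  refine ⟨k'.toSubfield, hac, ?_, ?_⟩
  · exact Set.countable_coe_iff.1 (Cardinal.mk_le_aleph0_iff.1 hk'c)
  · intro i m
    by_cases h0 : (f i).coeff m = 0
    · rw [h0]
      exact k'.toSubfield.zero_mem
    · have h1 : (f i).coeff m ∈ K₀ := by
        apply Subfield.subset_closure
        rw [hs, Set.mem_iUnion]
        exact ⟨i, coeff_mem_coeffs m h0⟩
      exact k'.algebraMap_mem ⟨_, h1⟩

/-- Reduction to the algebraic numbers. -/
theorem reduction {N d : ℕ} (f : Fin (N + 1) → MvPolynomial (Fin (N + 1)) ℂ)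
    (hf : Endomorphism d f) (a : Fin (N + 1) → ℂ) (ha : a ≠ 0)
    {S : Set (MvPolynomial (Fin (N + 1)) ℂ)} (hS : Small S) :
    ∃ (R : Set ℕ) (r : ℕ) (φ : Fin r → Fin (N + 1) → MvPolynomial (Fin (N + 1)) ℂ)
      (z : Fin r → Fin (N + 1) → ℂ) (Γ : Fin r → Set (MvPolynomial (Fin (N + 1)) ℂ)),
      FiniteUnion R ∧ (∀ s, Algebraic d (φ s) (z s) (Γ s)) ∧
        returnSet f a S = R ∩ ⋂ s, returnSet (φ s) (z s) (Γ s) := by
  rcases cases_small f a hS with h0 | h0
  · refine ⟨Set.univ, 0, Fin.elim0, Fin.elim0, Fin.elim0, finiteUnion_univ,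
      fun s => s.elim0, ?_⟩
    rw [h0, Set.univ_inter, Set.iInter_of_empty]
  · obtain ⟨A, r, φ, z, Γ, h1, h2⟩ := Pool.Agent.Helper30.RED.redCurve_all
      (isEndo hf) ha hS.1 h0
    refine ⟨Pool.Agent.Helper36.APSet A, r, φ, z, fun s => Γ s, ⟨A, rfl⟩, fun s => ?_, ?_⟩
    · have h3 := h1 s
      exact ⟨⟨h3.endo.two_le, h3.endo.hom, h3.endo.nz⟩, h3.ne, ⟨h3.hom, Or.inr h3.dim⟩,
        h3.algf, h3.algz, h3.algg⟩
    · have h3 : returnSet f a S =
          {n | ∀ g ∈ S, eval (Pool.Agent.Helper36.iter f a n) g = 0} := rfl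
      rw [h3, h2]
      congr 1
      ext n
      simp only [Set.mem_ofPred_eq, Set.mem_iInter, returnSet]
      rfl

/-- The set is the intersection of finitely many finite unions of progressions. -/
theorem finiteUnion_iInter {r : ℕ} {T : Fin r → Set ℕ} (hT : ∀ s, FiniteUnion (T s))
    {R : Set ℕ} (hR : FiniteUnion R) : FiniteUnion (R ∩ ⋂ s, T s) := by
  induction r with
  | zero =>
    rw [Set.iInter_of_empty, Set.inter_univ]
    exact hR
  | succ r ih =>
    have h1 : R ∩ ⋂ s, T s = (R ∩ ⋂ s : Fin r, T s.castSucc) ∩ T (Fin.last r) := by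
      ext n
      simp only [Set.mem_inter_iff, Set.mem_iInter]
      constructor
      · rintro ⟨h2, h3⟩
        exact ⟨⟨h2, fun s => h3 s.castSucc⟩, h3 (Fin.last r)⟩
      · rintro ⟨⟨h2, h3⟩, h4⟩
        refine ⟨h2, fun s => ?_⟩
        induction s using Fin.lastCases with
        | last => exact h4
        | cast s => exact h3 s
    rw [h1]
    exact Pool.Agent.Helper38.PC.FU.inter (ih fun s => hT s.castSucc) (hT (Fin.last r))

/-- **Theorem.** (A) Let `k` be an algebraically closed subfield of `ℂ`, let `f` give an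
endomorphism of degree `d ≥ 2` of `P^N` over `ℂ`, and let `a` be a point such that the points of
the orbit have unbounded height over `k`. Then the return set of `a` to every closed set of
dimension at most one (if `N = 2`: to every closed set) is a finite union of arithmetic
progressions; for closed sets of dimension two it is such a union together with finitely many sets
whose gaps tend to infinity.
(B) Every endomorphism of degree `d ≥ 2` of `P^N` over `ℂ` has this property at all but countably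
many points.
(C) Every return set of an endomorphism of degree `d ≥ 2` of `P^N` over `ℂ` to a closed set as in
(A) is the intersection of a finite union of arithmetic progressions and of finitely many return
sets of the same kind, with the same `N` and `d`, over the algebraic numbers.
(D) So the Dynamical Mordell-Lang property for endomorphisms of degree `d` of `P^N` and closed sets
as in (A) over the algebraic numbers implies the one over `ℂ`. -/
theorem result :
    (∀ (k : Subfield ℂ) (N d : ℕ) (f : Fin (N + 1) → MvPolynomial (Fin (N + 1)) ℂ)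
      (a : Fin (N + 1) → ℂ), IsAlgClosed k → Endomorphism d f → a ≠ 0 → Unbounded k f a →
      Property f a) ∧
    (∀ (N d : ℕ) (f : Fin (N + 1) → MvPolynomial (Fin (N + 1)) ℂ), Endomorphism d f →
      ∃ Z : Set (Fin (N + 1) → ℂ), Z.Countable ∧
        ∀ a : Fin (N + 1) → ℂ, a ≠ 0 → (∀ z ∈ Z, ∀ c : ℂ, a ≠ c • z) → Property f a) ∧
    (∀ (N d : ℕ) (f : Fin (N + 1) → MvPolynomial (Fin (N + 1)) ℂ), Endomorphism d f →
      ∀ a : Fin (N + 1) → ℂ, a ≠ 0 → ∀ S : Set (MvPolynomial (Fin (N + 1)) ℂ), Small S →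
        ∃ (R : Set ℕ) (r : ℕ) (φ : Fin r → Fin (N + 1) → MvPolynomial (Fin (N + 1)) ℂ)
          (z : Fin r → Fin (N + 1) → ℂ) (Γ : Fin r → Set (MvPolynomial (Fin (N + 1)) ℂ)),
          FiniteUnion R ∧ (∀ s, Algebraic d (φ s) (z s) (Γ s)) ∧
            returnSet f a S = R ∩ ⋂ s, returnSet (φ s) (z s) (Γ s)) ∧
    (∀ N d : ℕ, (∀ (φ : Fin (N + 1) → MvPolynomial (Fin (N + 1)) ℂ) (z : Fin (N + 1) → ℂ)
        (Γ : Set (MvPolynomial (Fin (N + 1)) ℂ)), Algebraic d φ z Γ →
        FiniteUnion (returnSet φ z Γ)) →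
      ∀ (f : Fin (N + 1) → MvPolynomial (Fin (N + 1)) ℂ) (a : Fin (N + 1) → ℂ),
        Endomorphism d f → a ≠ 0 → ∀ S : Set (MvPolynomial (Fin (N + 1)) ℂ), Small S →
          FiniteUnion (returnSet f a S)) := by
  refine ⟨fun k N d f a hk hf ha hunb => property hf fun S hS => unbounded k f hf a ha hunb hS,
    fun N d f hf => ?_, fun N d f hf a ha S hS => reduction f hf a ha hS,
    fun N d hd f a hf ha S hS => ?_⟩
  · obtain ⟨k, hk, hkc, hcoef⟩ := exists_countable_field f
    refine ⟨{z | ∀ i, z i ∈ k}, ?_, fun a ha0 ha => property hf fun S hS => ?_⟩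
    · have h1 : {z : Fin (N + 1) → ℂ | ∀ i, z i ∈ k} = Set.univ.pi fun _ => (k : Set ℂ) := by
        ext z
        simp
      rw [h1]
      exact Set.countable_univ_pi fun _ => hkc
    · refine unbounded k f hf a ha0 (Or.inl ⟨hcoef, ?_⟩) hS
      rintro ⟨c, hc, h⟩
      refine ha (c • a) (fun i => h i) c⁻¹ ?_
      rw [smul_smul, inv_mul_cancel₀ hc, one_smul]
  · obtain ⟨R, r, φ, z, Γ, hR, h1, h2⟩ := reduction f hf a ha hS
    rw [h2]
    exact finiteUnion_iInter (fun s => hd (φ s) (z s) (Γ s) (h1 s)) hR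

end Pool.Agent.Results.MP_b15c9e_ag.FunctionFieldPoints
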